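import Mathlib

set_option autoImplicit false

/-!
# Every union of `2p - 1` bases in characteristic `p` contains an AT-basis (squad ATB, problem MP_4e0dfc_co)

Definitions. `V = Fin n → K`, `A = K[X_1..X_n] ⊗ Λ(V)` (polynomial differential forms), `dd` the exterior derivative.
`Om k Z i` is spanned by the forms `∏_{z ∈ D} z ⊗ ω`, where `Z = B + D`, `|B| = k + i`, `ω ∈ Λ^i(span B)`.
-/

namespace Pool.Agent.ATB

open scoped TensorProduct

/-- Polynomial differential forms. -/
abbrev AA (K : Type) [Field K] (n : ℕ) : Type :=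
  MvPolynomial (Fin n) K ⊗[K] ExteriorAlgebra K (Fin n → K)

section defs
variable {K : Type} [Field K] {n : ℕ}

/-- The linear form `Σ v_s X_s`. -/
noncomputable def lin : (Fin n → K) →ₗ[K] MvPolynomial (Fin n) K :=
  ∑ s, (LinearMap.proj s : (Fin n → K) →ₗ[K] K).smulRight (MvPolynomial.X s)

theorem lin_apply (v : Fin n → K) : lin v = ∑ s, v s • (MvPolynomial.X s : MvPolynomial (Fin n) K) := by
  simp [lin, LinearMap.sum_apply]

theorem lin_single (s : Fin n) : lin (Pi.single s (1 : K)) = MvPolynomial.X s := by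
  classical
  rw [lin_apply, Finset.sum_eq_single s]
  · simp
  · intro b _ hb
    simp [Pi.single_eq_of_ne hb]
  · simp

theorem pderiv_lin (s : Fin n) (v : Fin n → K) :
    MvPolynomial.pderiv s (lin v) = MvPolynomial.C (v s) := by
  classical
  rw [lin_apply, map_sum, Finset.sum_eq_single s]
  · rw [Derivation.map_smul, MvPolynomial.pderiv_X_self, MvPolynomial.smul_eq_C_mul, mul_one]
  · intro b _ hb
    rw [Derivation.map_smul, MvPolynomial.pderiv_X_of_ne (by simpa using hb), smul_zero]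
  · simp

theorem lin_injective : Function.Injective (lin : (Fin n → K) →ₗ[K] MvPolynomial (Fin n) K) := by
  intro v w h
  funext s
  have := congrArg (MvPolynomial.pderiv s) h
  rw [pderiv_lin, pderiv_lin] at this
  exact MvPolynomial.C_injective _ _ this

theorem lin_eq_zero_iff (v : Fin n → K) : lin v = 0 ↔ v = 0 :=
  ⟨fun h => lin_injective (by rw [h, map_zero]), fun h => by rw [h, map_zero]⟩

/-- Product of the linear forms of a family. -/
noncomputable def prodm (Z : Multiset (Fin n → K)) : MvPolynomial (Fin n) K := (Z.map lin).prod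

theorem prodm_zero : prodm (0 : Multiset (Fin n → K)) = 1 := by simp [prodm]

theorem prodm_cons (z : Fin n → K) (Z : Multiset (Fin n → K)) : prodm (z ::ₘ Z) = lin z * prodm Z := by
  simp [prodm]

theorem prodm_add (Z Y : Multiset (Fin n → K)) : prodm (Z + Y) = prodm Z * prodm Y := by
  simp [prodm]

theorem prodm_replicate (l : ℕ) (c : Fin n → K) : prodm (Multiset.replicate l c) = lin c ^ l := by
  simp [prodm]

theorem prodm_ne_zero (Z : Multiset (Fin n → K)) (h : ∀ z ∈ Z, z ≠ 0) : prodm Z ≠ 0 := by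
  rw [prodm]
  apply Multiset.prod_ne_zero
  intro h0
  rw [Multiset.mem_map] at h0
  obtain ⟨z, hz, hz0⟩ := h0
  exact h z hz ((lin_eq_zero_iff z).1 hz0)

/-- The span of a family. -/
def sp (B : Multiset (Fin n → K)) : Submodule K (Fin n → K) := Submodule.span K {v | v ∈ B}

/-- `Λ^i(U)`, zero for negative `i`. -/
noncomputable def Lpow (U : Submodule K (Fin n → K)) : ℤ → Submodule K (ExteriorAlgebra K (Fin n → K))
  | Int.ofNat m => (U.map (ExteriorAlgebra.ι K)) ^ m
  | Int.negSucc _ => ⊥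

theorem sp_le {B : Multiset (Fin n → K)} {H : Submodule K (Fin n → K)} : sp B ≤ H ↔ ∀ z ∈ B, z ∈ H :=
  Submodule.span_le

theorem mem_sp {B : Multiset (Fin n → K)} {z : Fin n → K} (h : z ∈ B) : z ∈ sp B :=
  Submodule.subset_span h

theorem sp_cons (a : Fin n → K) (B : Multiset (Fin n → K)) :
    sp (a ::ₘ B) = sp B ⊔ Submodule.span K {a} := by
  rw [sp, sp, sup_comm, ← Submodule.span_union]
  congr 1
  ext z
  simp [Multiset.mem_cons]

theorem sp_add (B C : Multiset (Fin n → K)) : sp (B + C) = sp B ⊔ sp C := by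
  rw [sp, sp, sp, ← Submodule.span_union]
  congr 1
  ext z
  simp [Multiset.mem_add]

theorem Lpow_natCast (U : Submodule K (Fin n → K)) (m : ℕ) :
    Lpow U (m : ℤ) = (U.map (ExteriorAlgebra.ι K)) ^ m := rfl

theorem Lpow_neg (U : Submodule K (Fin n → K)) {i : ℤ} (h : i < 0) : Lpow U i = ⊥ := by
  obtain ⟨m, rfl⟩ := Int.eq_negSucc_of_lt_zero h
  rfl

/-- Multiplication of forms by the polynomial `s`. -/
noncomputable def pm (s : MvPolynomial (Fin n) K) : AA K n →ₗ[K] AA K n :=
  TensorProduct.map (LinearMap.mulLeft K s) LinearMap.id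

theorem pm_tmul (s t : MvPolynomial (Fin n) K) (w : ExteriorAlgebra K (Fin n → K)) :
    pm s (t ⊗ₜ[K] w) = (s * t) ⊗ₜ[K] w := by
  simp [pm]

theorem pm_eq_smul (s : MvPolynomial (Fin n) K) (x : AA K n) : pm s x = s • x := by
  induction x using TensorProduct.induction_on with
  | zero => simp
  | tmul t w => rw [pm_tmul, TensorProduct.smul_tmul', smul_eq_mul]
  | add x y hx hy => rw [map_add, hx, hy, smul_add]

theorem pm_mul (s t : MvPolynomial (Fin n) K) (x : AA K n) : pm (s * t) x = pm s (pm t x) := by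
  rw [pm_eq_smul, pm_eq_smul, pm_eq_smul, mul_smul]

theorem pm_one (x : AA K n) : pm 1 x = x := by
  rw [pm_eq_smul, one_smul]

theorem pm_injective {s : MvPolynomial (Fin n) K} (hs : s ≠ 0) :
    Function.Injective (pm s : AA K n →ₗ[K] AA K n) := by
  intro x y h
  rw [pm_eq_smul, pm_eq_smul] at h
  exact smul_right_injective _ hs h

/-- Left exterior multiplication `x ↦ dc ∧ x`. -/
noncomputable def wl (c : Fin n → K) : AA K n →ₗ[K] AA K n :=
  TensorProduct.map LinearMap.id (LinearMap.mulLeft K (ExteriorAlgebra.ι K c))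

theorem wl_tmul (c : Fin n → K) (t : MvPolynomial (Fin n) K) (w : ExteriorAlgebra K (Fin n → K)) :
    wl c (t ⊗ₜ[K] w) = t ⊗ₜ[K] (ExteriorAlgebra.ι K c * w) := by
  simp [wl]

theorem wl_pm (c : Fin n → K) (s : MvPolynomial (Fin n) K) (x : AA K n) :
    wl c (pm s x) = pm s (wl c x) := by
  induction x using TensorProduct.induction_on with
  | zero => simp
  | tmul t w => rw [pm_tmul, wl_tmul, wl_tmul, pm_tmul]
  | add x y hx hy => simp only [map_add, hx, hy]

/-- The exterior derivative. -/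
noncomputable def dd : AA K n →ₗ[K] AA K n :=
  ∑ s : Fin n, TensorProduct.map
    ((MvPolynomial.pderiv s : Derivation K (MvPolynomial (Fin n) K) (MvPolynomial (Fin n) K)) :
      MvPolynomial (Fin n) K →ₗ[K] MvPolynomial (Fin n) K)
    (LinearMap.mulLeft K (ExteriorAlgebra.ι K (Pi.single s (1 : K) : Fin n → K)))

theorem dd_tmul (t : MvPolynomial (Fin n) K) (w : ExteriorAlgebra K (Fin n → K)) :
    dd (t ⊗ₜ[K] w) = ∑ s : Fin n, MvPolynomial.pderiv s t ⊗ₜ[K]
      (ExteriorAlgebra.ι K (Pi.single s (1 : K) : Fin n → K) * w) := by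
  simp [dd, LinearMap.sum_apply]

/-- `Om k Z i`: span of the forms `∏_{z ∈ D} z ⊗ ω`, `B + D = Z`, `|B| = k + i`, `ω ∈ Λ^i(span B)`. -/
noncomputable def Om (k : ℤ) (Z : Multiset (Fin n → K)) (i : ℤ) : Submodule K (AA K n) :=
  Submodule.span K {x | ∃ B D : Multiset (Fin n → K), ∃ ω ∈ Lpow (sp B) i,
    B + D = Z ∧ (B.card : ℤ) = k + i ∧ x = prodm D ⊗ₜ[K] ω}

/-- The part of `Om k Z i` with `span B = H`. -/
noncomputable def OmH (k : ℤ) (Z : Multiset (Fin n → K)) (H : Submodule K (Fin n → K)) (i : ℤ) :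
    Submodule K (AA K n) :=
  Submodule.span K {x | ∃ B D : Multiset (Fin n → K), ∃ ω ∈ Lpow H i,
    B + D = Z ∧ sp B = H ∧ (B.card : ℤ) = k + i ∧ x = prodm D ⊗ₜ[K] ω}

/-- `Z ∩ H` and its complement. -/
noncomputable def ins (Z : Multiset (Fin n → K)) (H : Submodule K (Fin n → K)) : Multiset (Fin n → K) :=
  open scoped Classical in Z.filter (fun z => z ∈ H)

noncomputable def out (Z : Multiset (Fin n → K)) (H : Submodule K (Fin n → K)) : Multiset (Fin n → K) :=
  open scoped Classical in Z.filter (fun z => z ∉ H)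

theorem mem_ins {Z : Multiset (Fin n → K)} {H : Submodule K (Fin n → K)} {z : Fin n → K} :
    z ∈ ins Z H ↔ z ∈ Z ∧ z ∈ H := by
  classical
  unfold ins
  exact Multiset.mem_filter

theorem mem_out {Z : Multiset (Fin n → K)} {H : Submodule K (Fin n → K)} {z : Fin n → K} :
    z ∈ out Z H ↔ z ∈ Z ∧ z ∉ H := by
  classical
  unfold out
  exact Multiset.mem_filter

theorem ins_add (Z Y : Multiset (Fin n → K)) (H : Submodule K (Fin n → K)) :
    ins (Z + Y) H = ins Z H + ins Y H := by
  classical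
  unfold ins
  exact Multiset.filter_add _ _ _

theorem out_add (Z Y : Multiset (Fin n → K)) (H : Submodule K (Fin n → K)) :
    out (Z + Y) H = out Z H + out Y H := by
  classical
  unfold out
  exact Multiset.filter_add _ _ _

theorem ins_eq_self {Z : Multiset (Fin n → K)} {H : Submodule K (Fin n → K)} (h : ∀ z ∈ Z, z ∈ H) :
    ins Z H = Z := by
  classical
  unfold ins
  exact Multiset.filter_eq_self.2 h

theorem out_eq_self {Z : Multiset (Fin n → K)} {H : Submodule K (Fin n → K)} (h : ∀ z ∈ Z, z ∉ H) :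
    out Z H = Z := by
  classical
  unfold out
  exact Multiset.filter_eq_self.2 h

theorem ins_ins {Z : Multiset (Fin n → K)} {F H : Submodule K (Fin n → K)} (h : F ≤ H) :
    ins (ins Z H) F = ins Z F := by
  classical
  unfold ins
  rw [Multiset.filter_filter]
  apply Multiset.filter_congr
  intro z _
  exact ⟨fun hz => hz.1, fun hz => ⟨hz, h hz⟩⟩

theorem ins_add_out (Z : Multiset (Fin n → K)) (H : Submodule K (Fin n → K)) : ins Z H + out Z H = Z := by
  classical
  unfold ins out
  exact Multiset.filter_add_not (fun z => z ∈ H) Z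

/-- `C_k(Z ∩ H)` in degree `i`. -/
noncomputable def Cc (k : ℤ) (Z : Multiset (Fin n → K)) (H : Submodule K (Fin n → K)) (i : ℤ) :
    Submodule K (AA K n) := OmH k (ins Z H) H i

/-- The part of `Om k Z i` with `dim span B ≥ r`. -/
noncomputable def Omge (k : ℤ) (Z : Multiset (Fin n → K)) (r : ℕ) (i : ℤ) : Submodule K (AA K n) :=
  ⨆ (H : Submodule K (Fin n → K)) (_ : r ≤ Module.finrank K H), OmH k Z H i

/-- `Q_r` of the paper, in degree `i`. -/
noncomputable def Qm (k : ℤ) (Z : Multiset (Fin n → K)) (c : Fin n → K) (r : ℕ) (i : ℤ) :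
    Submodule K (AA K n) :=
  Om k Z i ⊔ ⨆ (H : Submodule K (Fin n → K)) (_ : c ∉ H ∧ r ≤ Module.finrank K H),
    ((OmH (k + 1) Z H i).map (pm (lin c)) ⊔ (OmH (k + 1) Z H (i - 1)).map (wl c))

/-- `Q'_r` of the paper, in degree `i`. -/
noncomputable def Qm' (k : ℤ) (Z : Multiset (Fin n → K)) (c : Fin n → K) (r : ℕ) (i : ℤ) :
    Submodule K (AA K n) :=
  Qm k Z c (r + 1) i ⊔ ⨆ (H : Submodule K (Fin n → K)) (_ : c ∉ H ∧ Module.finrank K H = r),
    (OmH (k + 1) Z H (i - 1)).map (wl c)

/-- The stable complex. -/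
noncomputable def Sig (k : ℤ) (Z : Multiset (Fin n → K)) (c : Fin n → K) (i : ℤ) : Submodule K (AA K n) :=
  Submodule.span K {x | ∃ (l : ℕ) (B D : Multiset (Fin n → K)), ∃ ω ∈ Lpow (sp B ⊔ Submodule.span K {c}) i,
    B + D = Z ∧ (B.card : ℤ) = k + l + i ∧ x = (lin c ^ l * prodm D) ⊗ₜ[K] ω}

/-- Exactness in degree `m`. -/
def ExactAt (C : ℤ → Submodule K (AA K n)) (m : ℤ) : Prop :=
  ∀ η ∈ C m, dd η = 0 → ∃ θ ∈ C (m - 1), dd θ = η

/-- The hypothesis of the vanishing theorem, `m = dim W - q` is the degree of the forms. -/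
def HYP (p : ℕ) (W : Submodule K (Fin n → K)) (Z : Multiset (Fin n → K)) (k m : ℤ) : Prop :=
  m ≤ Module.finrank K W → ∀ F : Submodule K (Fin n → K), F ≤ W →
    ((ins Z F).card : ℤ) + p * (Module.finrank K W - m + 1) + (p - 1) * Module.finrank K W
      ≤ k + (2 * p - 1) * Module.finrank K F

/-- The homomorphism `v ↦ (v - π v) + T π v` to polynomials in `T`. -/
noncomputable def phi (π : (Fin n → K) →ₗ[K] (Fin n → K)) :
    MvPolynomial (Fin n) K →ₐ[K] Polynomial (MvPolynomial (Fin n) K) :=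
  MvPolynomial.aeval (fun s => Polynomial.C (lin (Pi.single s 1 - π (Pi.single s 1))) +
    Polynomial.X * Polynomial.C (lin (π (Pi.single s 1))))

/-- The part of order `u` with respect to `π`. -/
noncomputable def ldp (π : (Fin n → K) →ₗ[K] (Fin n → K)) (u : ℕ) :
    MvPolynomial (Fin n) K →ₗ[K] MvPolynomial (Fin n) K :=
  ((Polynomial.lcoeff (MvPolynomial (Fin n) K) u).restrictScalars K) ∘ₗ (phi π).toLinearMap

/-- The same on forms (the form part is not changed). -/
noncomputable def ld (π : (Fin n → K) →ₗ[K] (Fin n → K)) (u : ℕ) : AA K n →ₗ[K] AA K n :=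
  TensorProduct.map (ldp π u) LinearMap.id

end defs

end Pool.Agent.ATB
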