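import Pool.Agent.ATB.Defs

set_option autoImplicit false

/-!
# Statements of squad ATB (sections 0 and 1 of PAPER_ATB.md)

Zero vectors are allowed everywhere (they lie in every subspace). Degrees `i`, `m` and the number `k` are integers.
`PH = prodm (out Z H)`. Every row may use the rows named in its docstring as hypotheses.
-/

namespace Pool.Agent.ATB

open scoped TensorProduct

/-- Contraction of forms with a functional. -/
noncomputable def ctr {K : Type} [Field K] {n : ℕ} (P : Module.Dual K (Fin n → K)) : AA K n →ₗ[K] AA K n :=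
  TensorProduct.map LinearMap.id (CliffordAlgebra.contractLeft (Q := (0 : QuadraticForm K (Fin n → K))) P)

/-- DIF: the rules for `dd`, `wl`, `pm`. (Induction on tensors; `pderiv s` and `pderiv t` commute, `ι e_s ι e_t = - ι e_t ι e_s`,
`ι c = Σ c_s ι e_s`, `pderiv_lin`.) (6) follows from (3) by induction on `l`. -/
def DIFStmt : Prop := ∀ (K : Type) [Field K] (n : ℕ),
  (∀ x : AA K n, dd (dd x) = 0) ∧
  (∀ (c : Fin n → K) (x : AA K n), wl c (wl c x) = 0) ∧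
  (∀ (c : Fin n → K) (x : AA K n), dd (pm (lin c) x) = wl c x + pm (lin c) (dd x)) ∧
  (∀ (c : Fin n → K) (x : AA K n), dd (wl c x) = - wl c (dd x)) ∧
  (∀ ω : ExteriorAlgebra K (Fin n → K), dd ((1 : MvPolynomial (Fin n) K) ⊗ₜ[K] ω) = 0) ∧
  (∀ (c : Fin n → K) (l : ℕ) (x : AA K n),
    dd (pm (lin c ^ (l + 1)) x) = ((l + 1 : ℕ) : K) • pm (lin c ^ l) (wl c x) + pm (lin c ^ (l + 1)) (dd x)) ∧
  (∀ (c c' : Fin n → K) (a : K) (x : AA K n), wl (c + a • c') x = wl c x + a • wl c' x)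

/-- LPW: exterior powers. (1) monotone; (2) multiplication by `a ∈ U`; (3) decomposition of `Λ^i(U + K c)`: by induction
on `i`, `ι c` anticommutes with `ι u` (`ι_mul_ι_add_swap`) and `ι c * ι c = 0`; (4) `Λ^i(U) = 0` for `i > dim U` (induction on
`dim U` by (3), or alternating maps of linearly dependent vectors vanish). Everything trivial for `i < 0`. -/
def LPWStmt : Prop := ∀ (K : Type) [Field K] (n : ℕ),
  (∀ (U U' : Submodule K (Fin n → K)) (i : ℤ), U ≤ U' → Lpow U i ≤ Lpow U' i) ∧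
  (∀ (U : Submodule K (Fin n → K)) (i : ℤ) (a : Fin n → K) (ω : ExteriorAlgebra K (Fin n → K)),
    a ∈ U → ω ∈ Lpow U i → ExteriorAlgebra.ι K a * ω ∈ Lpow U (i + 1)) ∧
  (∀ (U : Submodule K (Fin n → K)) (c : Fin n → K) (i : ℤ) (ω : ExteriorAlgebra K (Fin n → K)),
    ω ∈ Lpow (U ⊔ Submodule.span K {c}) i →
      ∃ ω₀ ∈ Lpow U i, ∃ ω₁ ∈ Lpow U (i - 1), ω = ω₀ + ExteriorAlgebra.ι K c * ω₁) ∧
  (∀ (U : Submodule K (Fin n → K)) (i : ℤ), (Module.finrank K U : ℤ) < i → Lpow U i = ⊥)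

/-- CTR: contraction with a functional `P` (`CliffordAlgebra.contractLeft_ι_mul`); it kills the forms of `Λ^i(U)` if `P` vanishes
on `U`, and commutes with the operations on polynomials. -/
def CTRStmt : Prop := ∀ (K : Type) [Field K] (n : ℕ) (P : Module.Dual K (Fin n → K)),
  (∀ (c : Fin n → K) (x : AA K n), ctr P (wl c x) = P c • x - wl c (ctr P x)) ∧
  (∀ (s : MvPolynomial (Fin n) K) (x : AA K n), ctr P (pm s x) = pm s (ctr P x)) ∧
  (∀ (π : (Fin n → K) →ₗ[K] (Fin n → K)) (u : ℕ) (x : AA K n), ctr P (ld π u x) = ld π u (ctr P x)) ∧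
  (∀ (U : Submodule K (Fin n → K)) (i : ℤ) (ω : ExteriorAlgebra K (Fin n → K)) (s : MvPolynomial (Fin n) K),
    (∀ u ∈ U, P u = 0) → ω ∈ Lpow U i → ctr P (s ⊗ₜ[K] ω) = 0)

/-- LEA: lead maps. `π` is a projection onto `H`. `phi π (lin v) = C (lin (v - π v)) + X * C (lin (π v))` (linearity), so
`phi π (prodm D) = X^|ins D H| * C (prodm (ins D H)) * ∏_{z ∈ out D H} (C (lin (z - π z)) + X * C (lin (π z)))`. (1), (2): coefficients
of order `< |ins D H|` vanish, and the coefficient of order `|ins D H|`. (3) `v - π v ≠ 0` for `v ∉ H`. (4) factors from the kernel of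
`π` come out. (5), (6) existence of projections: onto `H` killing a given `c ∉ H`; onto `K c` killing a given `H` with `c ∉ H`, and killing
a given projection's data is never needed. (7) `ld` commutes with `wl`. (8) `ld` on a tensor. -/
def LEAStmt : Prop := ∀ (K : Type) [Field K] (n : ℕ),
  (∀ (H : Submodule K (Fin n → K)) (π : (Fin n → K) →ₗ[K] (Fin n → K)), (∀ v, π v ∈ H) → (∀ v ∈ H, π v = v) →
    (∀ (D : Multiset (Fin n → K)) (u : ℕ), u < (ins D H).card → ldp π u (prodm D) = 0) ∧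
    (∀ (D : Multiset (Fin n → K)), ldp π (ins D H).card (prodm D) =
      prodm (ins D H) * prodm ((out D H).map (fun v => v - π v))) ∧
    (∀ (D : Multiset (Fin n → K)), prodm ((out D H).map (fun v => v - π v)) ≠ 0)) ∧
  (∀ (π : (Fin n → K) →ₗ[K] (Fin n → K)) (D : Multiset (Fin n → K)) (u : ℕ) (t : MvPolynomial (Fin n) K),
    (∀ z ∈ D, π z = 0) → ldp π u (prodm D * t) = prodm D * ldp π u t) ∧
  (∀ (H : Submodule K (Fin n → K)), ∃ π : (Fin n → K) →ₗ[K] (Fin n → K), (∀ v, π v ∈ H) ∧ (∀ v ∈ H, π v = v)) ∧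
  (∀ (H : Submodule K (Fin n → K)) (c : Fin n → K), c ∉ H →
    ∃ π : (Fin n → K) →ₗ[K] (Fin n → K), (∀ v, π v ∈ H) ∧ (∀ v ∈ H, π v = v) ∧ π c = 0) ∧
  (∀ (H : Submodule K (Fin n → K)) (c : Fin n → K), c ∉ H →
    ∃ π : (Fin n → K) →ₗ[K] (Fin n → K), (∀ v, π v ∈ Submodule.span K {c}) ∧ π c = c ∧ ∀ v ∈ H, π v = 0) ∧
  (∀ (π : (Fin n → K) →ₗ[K] (Fin n → K)) (u : ℕ) (c : Fin n → K) (x : AA K n), ld π u (wl c x) = wl c (ld π u x)) ∧
  (∀ (π : (Fin n → K) →ₗ[K] (Fin n → K)) (u : ℕ) (t : MvPolynomial (Fin n) K)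
    (ω : ExteriorAlgebra K (Fin n → K)), ld π u (t ⊗ₜ[K] ω) = ldp π u t ⊗ₜ[K] ω) ∧
  (∀ (π : (Fin n → K) →ₗ[K] (Fin n → K)) (c : Fin n → K) (l u : ℕ) (t : MvPolynomial (Fin n) K), π c = c →
    ldp π u (lin c ^ l * t) = if l ≤ u then lin c ^ l * ldp π (u - l) t else 0)

/-- DPR (uses DIF): differential of `prodm E * x`. (1) by induction on `E` (for all `T`): `E = b ::ₘ E₀`,
`dd (pm (lin b) (pm (prodm E₀) x)) = pm (prodm E₀) (wl b x) + pm (lin b) (dd (pm (prodm E₀) x))`, and use the induction hypothesis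
with `T.comap (pm (lin b))`. (2) is (1) with `x = 1 ⊗ ω`. -/
def DPRStmt : Prop := ∀ (K : Type) [Field K] (n : ℕ),
  (∀ (E : Multiset (Fin n → K)) (x : AA K n) (T : Submodule K (AA K n)),
    (∀ (a : Fin n → K) (E' : Multiset (Fin n → K)), E = a ::ₘ E' → pm (prodm E') (wl a x) ∈ T) →
    dd (pm (prodm E) x) - pm (prodm E) (dd x) ∈ T) ∧
  (∀ (E : Multiset (Fin n → K)) (ω : ExteriorAlgebra K (Fin n → K)) (T : Submodule K (AA K n)),
    (∀ (a : Fin n → K) (E' : Multiset (Fin n → K)), E = a ::ₘ E' →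
      prodm E' ⊗ₜ[K] (ExteriorAlgebra.ι K a * ω) ∈ T) →
    dd (prodm E ⊗ₜ[K] ω) ∈ T)

/-- CLO (uses DPR LPW): the spaces are closed under `dd`. (3): if `B + D = Z`, `sp B = H` then `B ≤ ins Z H`, `D = D₁ + out Z H` with
`B + D₁ = ins Z H`. (4): DPR (1) with `E = out Z H`: `a ∉ H`, `B' = B + a`, `H' = H + K a`. (5), (6), (7) formal. (8): `ι c * ω ∈ Λ^{i+1}(H)`
and `k + 1 + i = k + (i + 1)`. -/
def CLOStmt : Prop := ∀ (K : Type) [Field K] (n : ℕ) (k : ℤ) (Z : Multiset (Fin n → K)),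
  (∀ (i : ℤ) (x : AA K n), x ∈ Om k Z i → dd x ∈ Om k Z (i + 1)) ∧
  (∀ (H : Submodule K (Fin n → K)) (i : ℤ) (x : AA K n), x ∈ Cc k Z H i → dd x ∈ Cc k Z H (i + 1)) ∧
  (∀ (H : Submodule K (Fin n → K)) (i : ℤ), OmH k Z H i = (Cc k Z H i).map (pm (prodm (out Z H)))) ∧
  (∀ (H : Submodule K (Fin n → K)) (i : ℤ) (x : AA K n), x ∈ Cc k Z H i →
    dd (pm (prodm (out Z H)) x) - pm (prodm (out Z H)) (dd x) ∈
      ⨆ (H' : Submodule K (Fin n → K)) (_ : H ≤ H' ∧ Module.finrank K H' = Module.finrank K H + 1),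
        OmH k Z H' (i + 1)) ∧
  (∀ (H : Submodule K (Fin n → K)) (i : ℤ), OmH k Z H i ≤ Om k Z i) ∧
  (∀ i : ℤ, Omge k Z 0 i = Om k Z i) ∧
  (∀ (r : ℕ) (i : ℤ) (x : AA K n), x ∈ Omge k Z r i → dd x ∈ Omge k Z r (i + 1)) ∧
  (∀ (H : Submodule K (Fin n → K)) (c : Fin n → K) (i : ℤ) (x : AA K n), c ∈ H → x ∈ OmH (k + 1) Z H i →
    wl c x ∈ OmH k Z H (i + 1)) ∧
  (∀ (H W : Submodule K (Fin n → K)) (i : ℤ), (∀ z ∈ Z, z ∈ W) → ¬ H ≤ W → OmH k Z H i = ⊥) ∧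
  (∀ (r : ℕ) (i : ℤ), Omge k Z r i = Omge k Z (r + 1) i ⊔
    ⨆ H : {H : Submodule K (Fin n → K) // Module.finrank K H = r}, (Cc k Z H.1 i).map (pm (prodm (out Z H.1))))

/-- J00 (uses LEA, CLO): direct sum (1) of the paper. Fix `H₀` in the support, `π` a projection onto `H₀`,
`u = |ins Z H₀| - (k + i)` (if this number is negative or `k + i < 0` then `Cc k Z H₀ i = 0`). `ld π u` kills every generator
`prodm D ⊗ ω` with `|B| = k + i`, `B` not contained in `H₀`, since `|ins D H₀| = |ins Z H₀| - |ins B H₀| > u`. For `sp B = H ≤ H₀`,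
`dim H ≥ dim H₀` gives `H = H₀`. On `Cc k Z H₀ i`: `ld π u (pm PH₀ x) = pm Π x`, `Π = prodm ((out Z H₀).map (v - π v)) ≠ 0` (LEA (1)(2)(3) for
`D = D₁ + out Z H₀`). So `pm Π (f H₀) = 0` and `f H₀ = 0` by `pm_injective`. -/
def J00Stmt : Prop := ∀ (K : Type) [Field K] (n : ℕ) (k : ℤ) (Z : Multiset (Fin n → K)) (i : ℤ) (r : ℕ)
    (f : {H : Submodule K (Fin n → K) // Module.finrank K H = r} →₀ AA K n),
  (∀ H, f H ∈ Cc k Z H.1 i) →
  f.sum (fun H x => pm (prodm (out Z H.1)) x) ∈ Omge k Z (r + 1) i → ∀ H, f H = 0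

/-- IN2 (uses LEA, CLO): (I2) of the paper. Fix `H₀`, `π` a projection onto `H₀` with `π c = 0`,
`u = |ins Z H₀| - (k + 1 + i)` (otherwise `Cc (k+1) Z H₀ i = 0`). `ld π u` kills `Om k Z i` (`|B| = k + i`, order `≥ u + 1`),
`wl c (OmH (k+1) Z H (i-1))` (`|B| = k + i`), and `pm (lin c) (OmH (k+1) Z H i)` for `dim H ≥ r`, `H ≠ H₀` (`|B| = k + 1 + i`, not all in `H₀`; the
factor `c` is in the kernel of `π`). It maps `pm (lin c) (pm PH₀ x)` to `pm (lin c * Π) x`. So `f H₀ = 0`. -/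
def IN2Stmt : Prop := ∀ (K : Type) [Field K] (n : ℕ) (k : ℤ) (Z : Multiset (Fin n → K)) (c : Fin n → K) (i : ℤ) (r : ℕ)
    (f : {H : Submodule K (Fin n → K) // c ∉ H ∧ Module.finrank K H = r} →₀ AA K n),
  (∀ H, f H ∈ Cc (k + 1) Z H.1 i) →
  f.sum (fun H x => pm (lin c) (pm (prodm (out Z H.1)) x)) ∈ Qm' k Z c r i → ∀ H, f H = 0

/-- IN1 (uses LEA, CTR, LPW, CLO): (I1) of the paper. Fix `H₀`, `π` a projection onto `H₀` with `π c = 0`,
`u = |ins Z H₀| - (k + 1 + i)` (otherwise `Cc (k+1) Z H₀ i = 0`). Apply `ld π u` (`ld` commutes with `wl`):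
`wl c (pm Π (f H₀))` on the left, `Π = prodm ((out Z H₀).map (v - π v))`; the other `H` of dimension `r` are killed. On the right, degree `i + 1`:
`Om k Z (i+1)`: `|B| = k + i + 1`, killed unless `B ⊆ H₀`, and then `prodm D₁ * Π ⊗ ω` with `ω ∈ Λ^{i+1}(H₀)`; `wl c (OmH (k+1) Z H i)` with
`dim H ≥ r + 1`: `|B| = k + 1 + i`, not all in `H₀`: killed; `pm (lin c) (OmH (k+1) Z H (i+1))`, `dim H ≥ r + 1`, `c ∉ H`: `|B| = k + i + 2`, killed unless
`B = B₀ + b`, `B₀ ⊆ H₀`, `b ∉ H₀`: then `lin c * prodm D₁ * prodm (((out Z H₀) - b).map (v - π v)) ⊗ ω`, and `b - π b ∉ K c` because `c ∉ H`, `H₀ = H ⊓ ..`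
(`B₀` and `b` are in `H`; careful: `π b ∈ H₀` need not be in `H`; take `P`, `π'` below and use `b ∉ H₀ + K c`: if `b = h₀ + γ c`, then `span B = H` has
dimension `≥ r + 1` and `B₀ ∪ {b} ⊆ H₀ + K c`, so `H = H₀ + K c` contains `c`, contradiction). Now contract with `P`, `P = 0` on `H₀`, `P c = 1`
(CTR): left side becomes `pm Π (f H₀)` (`f H₀` has forms in `Λ(H₀)`), the terms with `ω ∈ Λ^{i+1}(H₀)` vanish, and the last terms become
`lin c * prodm D₁ * prodm (((out Z H₀) - b).map (v - π v)) ⊗ ω'`. Let `π'` be the projection onto `K c` killing `H₀`, `Z'' = (out Z H₀).map (v - π v)`,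
`μ = |ins Z'' (K c)|`. `ld π' μ` kills the last terms (`μ + 1` members in `K c`, since `b - π b ∉ K c`), and `ld π' μ (pm Π (f H₀)) = pm Π' (f H₀)` with
`Π' = ldp π' μ Π ≠ 0` (LEA (2), (3), (4): the members of `H₀` are killed by `π'`). So `f H₀ = 0`. -/
def IN1Stmt : Prop := ∀ (K : Type) [Field K] (n : ℕ) (k : ℤ) (Z : Multiset (Fin n → K)) (c : Fin n → K) (i : ℤ) (r : ℕ)
    (f : {H : Submodule K (Fin n → K) // c ∉ H ∧ Module.finrank K H = r} →₀ AA K n),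
  (∀ H, f H ∈ Cc (k + 1) Z H.1 i) →
  f.sum (fun H x => wl c (pm (prodm (out Z H.1)) x)) ∈ Qm k Z c (r + 1) (i + 1) → ∀ H, f H = 0

/-- CIN (uses LPW): `c` times a generator with `c ∈ sp B`. Write `c = Σ_{b ∈ B} c_b b` (a combination of the members; enough: by linearity
and span induction it is a sum over members, but use a combination over a subfamily or do the following): `lin c * prodm D = Σ c_b prodm (D + b)`,
and `B = b + B_b`. If `b ∈ sp B_b` then `ω ∈ Λ^i(sp B_b)` and the term is in `Om k Z i` (`|B_b| = k + i`). If `b ∉ sp B_b` and `c_b ≠ 0` then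
`c ∉ sp B_b`, `sp B = sp B_b + K c`, and LPW (3) `ω = ω₀ + ι c * ω₁`: the first part is in `Om k Z i`, the second in
`wl c (OmH (k+1) Z (sp B_b) (i-1))` (`|B_b| = (k + 1) + (i - 1)`), `dim sp B_b + 1 = dim sp B`. -/
def CINStmt : Prop := ∀ (K : Type) [Field K] (n : ℕ) (k : ℤ) (Z B D : Multiset (Fin n → K)) (c : Fin n → K) (i : ℤ)
    (ω : ExteriorAlgebra K (Fin n → K)),
  B + D = Z → (B.card : ℤ) = k + 1 + i → ω ∈ Lpow (sp B) i → c ∈ sp B →
  pm (lin c) (prodm D ⊗ₜ[K] ω) ∈ Om k Z i ⊔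
    ⨆ (H : Submodule K (Fin n → K)) (_ : c ∉ H ∧ Module.finrank K H + 1 = Module.finrank K (sp B)),
      (OmH (k + 1) Z H (i - 1)).map (wl c)

/-- GEN (uses CIN CLO LPW): (2) of the paper. (1) `Qm` at `r = 0`: generators of `Om (k+1) (c ::ₘ Z) i`: `B + D = c ::ₘ Z`. If `c ∈ B`, `B = c ::ₘ B'`:
LPW (3) for `sp B = sp B' + K c`; `|B'| = k + i`; the part `ι c * ω₁` is in `Om k Z i` if `c ∈ sp B'` and in `wl c (OmH (k+1) Z (sp B') (i-1))` otherwise.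
If `D = c ::ₘ D'`: `c ∉ sp B`: in `pm (lin c) (OmH (k+1) Z (sp B) i)`; `c ∈ sp B`: CIN. Conversely all three kinds of generators of `Qm` are in
`Om (k+1) (c ::ₘ Z) i` (`Om k Z i`: `B' = c ::ₘ B`; `pm (lin c)`: `D' = c ::ₘ D`; `wl c`: `B' = c ::ₘ B`). (2) `c ∉ H` implies `dim H < n`. (3) formal.
(4), (5) formal with CLO (3). -/
def GENStmt : Prop := ∀ (K : Type) [Field K] (n : ℕ) (k : ℤ) (Z : Multiset (Fin n → K)) (c : Fin n → K) (i : ℤ),
  (Qm k Z c 0 i = Om (k + 1) (c ::ₘ Z) i) ∧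
  (∀ r : ℕ, n ≤ r → Qm k Z c r i = Om k Z i) ∧
  (∀ r : ℕ, Om k Z i ≤ Qm k Z c r i ∧ Qm k Z c (r + 1) i ≤ Qm' k Z c r i ∧ Qm' k Z c r i ≤ Qm k Z c r i) ∧
  (∀ r : ℕ, Qm k Z c r i = Qm' k Z c r i ⊔
    ⨆ H : {H : Submodule K (Fin n → K) // c ∉ H ∧ Module.finrank K H = r},
      (Cc (k + 1) Z H.1 i).map (pm (lin c) ∘ₗ pm (prodm (out Z H.1)))) ∧
  (∀ r : ℕ, Qm' k Z c r i = Qm k Z c (r + 1) i ⊔
    ⨆ H : {H : Submodule K (Fin n → K) // c ∉ H ∧ Module.finrank K H = r},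
      (Cc (k + 1) Z H.1 (i - 1)).map (wl c ∘ₗ pm (prodm (out Z H.1))))

/-- DQS (uses DIF CLO CIN LPW): (3) of the paper. (3): `dd (wl c y) = - wl c (dd y)` for `y = pm PH α`, and `dd y - pm PH (dd α)` is in the sum of the
`OmH (k+1) Z H' (i+1)`, `H' ≥ H`, `dim H' = r + 1` (CLO (4)); `wl c` maps it to `Om k Z (i+2)` if `c ∈ H'` (CLO (8)) and to `Qm` otherwise.
(4): `dd (pm (lin c) y) = wl c y + pm (lin c) (dd y)`; `wl c y` is in `wl c (OmH (k+1) Z H i)`, in `Qm' k Z c r (i+1)`; for `y' ∈ OmH (k+1) Z H' (i+1)`,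
`dim H' = r + 1`: `c ∉ H'`: in `Qm k Z c (r+1) (i+1)`; `c ∈ H'`: CIN: in `Om k Z (i+1)` plus `wl c (OmH (k+1) Z H'' i)`, `c ∉ H''`, `dim H'' = r`. (1), (2) follow
from (3), (4), CLO. -/
def DQSStmt : Prop := ∀ (K : Type) [Field K] (n : ℕ) (k : ℤ) (Z : Multiset (Fin n → K)) (c : Fin n → K) (i : ℤ) (r : ℕ),
  (∀ x ∈ Qm k Z c r i, dd x ∈ Qm k Z c r (i + 1)) ∧
  (∀ x ∈ Qm' k Z c r i, dd x ∈ Qm' k Z c r (i + 1)) ∧
  (∀ (H : Submodule K (Fin n → K)) (α : AA K n), c ∉ H → Module.finrank K H = r → α ∈ Cc (k + 1) Z H i →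
    dd (wl c (pm (prodm (out Z H)) α)) + wl c (pm (prodm (out Z H)) (dd α)) ∈ Qm k Z c (r + 1) (i + 2)) ∧
  (∀ (H : Submodule K (Fin n → K)) (α : AA K n), c ∉ H → Module.finrank K H = r → α ∈ Cc (k + 1) Z H i →
    dd (pm (lin c) (pm (prodm (out Z H)) α)) - pm (lin c) (pm (prodm (out Z H)) (dd α)) ∈ Qm' k Z c r (i + 1))

/-- FIL (pure linear algebra, uses nothing): one step of a filtration argument. `θ = q + Σ_h e_h x_h` (finitely supported),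
`d θ ∈ Q2` gives `Σ_h ε e_h (d x_h) ∈ Q2`, so `d x_h = 0`, `x_h = d y_h`, `θ' = θ - ε⁻¹ Σ_h d (e_h y_h)`. -/
def FILStmt : Prop := ∀ (K : Type) [Field K] (M ι : Type) [AddCommGroup M] [Module K M] (d : M →ₗ[K] M)
    (e : ι → M →ₗ[K] M) (C0 C1 C2 : ι → Submodule K M) (Q1 Q2 : Submodule K M) (ε : K),
  ε ≠ 0 → (∀ x, d (d x) = 0) → (∀ h, ∀ x ∈ C1 h, d x ∈ C2 h) →
  (∀ h, ∀ x ∈ C1 h, d (e h x) - ε • e h (d x) ∈ Q2) →
  (∀ h, ∀ x ∈ C0 h, d (e h x) - ε • e h (d x) ∈ Q1) →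
  (∀ f : ι →₀ M, (∀ h, f h ∈ C2 h) → f.sum (fun h x => e h x) ∈ Q2 → ∀ h, f h = 0) →
  (∀ h, ∀ x ∈ C1 h, d x = 0 → ∃ y ∈ C0 h, d y = x) →
  (∀ x ∈ Q1, d x ∈ Q2) →
  ∀ θ ∈ Q1 ⊔ ⨆ h, (C1 h).map (e h), d θ ∈ Q2 → ∃ θ' ∈ Q1, d θ' = d θ

/-- INJ (uses FIL GEN DQS IN1 IN2 CLO DIF): (5) of the paper. `η ∈ Om k Z m` closed; `η = dd θ`, `θ ∈ Om (k+1) (c ::ₘ Z) (m-1) = Qm k Z c 0 (m-1)`.
For each `r`: from `θ ∈ Qm k Z c r (m-1)` to `Qm' k Z c r (m-1)` by FIL with `e_H = pm (lin c) ∘ pm PH`, `ε = 1`, `C_j = Cc (k+1) Z H (m-2+j)`, IN2 with `i = m`;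
then to `Qm k Z c (r+1) (m-1)` by FIL with `e_H = wl c ∘ pm PH`, `ε = -1`, `C_j = Cc (k+1) Z H (m-3+j)`, IN1 with `i = m - 1`. End at `r = n`. -/
def INJStmt : Prop := ∀ (K : Type) [Field K] (n : ℕ) (k : ℤ) (Z : Multiset (Fin n → K)) (c : Fin n → K) (m : ℤ),
  (∀ H : Submodule K (Fin n → K), c ∉ H → ExactAt (Cc (k + 1) Z H) (m - 1) ∧ ExactAt (Cc (k + 1) Z H) (m - 2)) →
  ExactAt (Om (k + 1) (c ::ₘ Z)) m → ExactAt (Om k Z) m

/-- CHN (uses INJ): iterate INJ; `Cc k' (replicate j c + Z) H = Cc k' Z H` if `c ∉ H` (the members of `ins` are the same). -/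
def CHNStmt : Prop := ∀ (K : Type) [Field K] (n : ℕ) (k : ℤ) (Z : Multiset (Fin n → K)) (c : Fin n → K) (m : ℤ),
  (∀ (j : ℕ) (H : Submodule K (Fin n → K)), c ∉ H →
    ExactAt (Cc (k + 1 + j) Z H) (m - 1) ∧ ExactAt (Cc (k + 1 + j) Z H) (m - 2)) →
  ∀ s : ℕ, ExactAt (Om (k + s) (Multiset.replicate s c + Z)) m → ExactAt (Om k Z) m

/-- SGE: for large `s` the complex is `Sig`. `B + D = replicate s c + Z` means `B = replicate (s - l) c + B₁`, `D = replicate l c + D₁`, `B₁ + D₁ = Z`,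
`l ≤ s`; `|B| = k + s + i` iff `|B₁| = k + l + i`; since `|B₁| ≤ |Z| < s`, `k ≥ 0` and `i ≥ 0` (negative `i` trivial) we have `l < s`, so
`sp B = sp B₁ + K c`. -/
def SGEStmt : Prop := ∀ (K : Type) [Field K] (n : ℕ) (k : ℤ) (Z : Multiset (Fin n → K)) (c : Fin n → K) (i : ℤ) (s : ℕ),
  0 ≤ k → Z.card < s → Om (k + s) (Multiset.replicate s c + Z) i = Sig k Z c i

/-- SGI: `Sig` does not change if the members of `Z` are changed by multiples of `c`. One member at a time: show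
`Sig k (z' ::ₘ Y) c i ≤ Sig k (z ::ₘ Y) c i` for `z' = z + β c`. `z' ∈ B`: replace `B = z' ::ₘ B₁` by `z ::ₘ B₁` (`sp B + K c` is the same). `z' ∈ D`, `D = z' ::ₘ D₁`:
`lin c ^ l * prodm D = lin c ^ l * prodm (z ::ₘ D₁) + β lin c ^ (l+1) * prodm D₁`, and the second is a generator with `l + 1`, `z ::ₘ B`.
Then `Multiset` induction for `Z.map f + Y`. -/
def SGIStmt : Prop := ∀ (K : Type) [Field K] (n : ℕ) (k : ℤ) (Z : Multiset (Fin n → K)) (c : Fin n → K) (i : ℤ)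
    (f : (Fin n → K) → (Fin n → K)), (∀ z ∈ Z, f z - z ∈ Submodule.span K {c}) →
  Sig k (Z.map f) c i = Sig k Z c i

/-- SGX (uses DIF LPW LEA CTR CLO): exactness of `Sig` when `Z` is contained in the kernel of a functional `P` with `P c = 1`.
An element of `Sig k Z c m` is a finite sum `Σ_l (pm (lin c ^ l) α_l + pm (lin c ^ l) (wl c β_l))`, `α_l ∈ Om (k+l) Z m`, `β_l ∈ Om (k+l+1) Z (m-1)` (LPW (3)).
Independence: if `α_l`, `β_l` are sums of tensors `prodm D ⊗ ω`, `D` and `ω` from `ker P`, and this sum is 0, then all `α_l = β_l = 0`: apply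
`ld π l`, `π v = P v • c` (LEA (4) and the last part) to get `α_l + wl c β_l = 0`, then `ctr P`. From `dd θ = 0` (DIF):
`dd α_l = 0` and `(l+1) α_{l+1} = dd β_l`. If `p` does not divide `l + 1`: `pm (c^{l+1}) α_{l+1} + pm (c^l) (wl c β_l) = dd (pm (c^{l+1}) ((l+1)⁻¹ β_l))`.
If `p ∣ l + 1`: `dd β_l = 0`, `α_{l+1} = dd γ`, `β_l = dd γ'` by the hypotheses, and
`pm (c^{l+1}) α_{l+1} = dd (pm (c^{l+1}) γ)`, `pm (c^l) (wl c β_l) = - dd (pm (c^l) (wl c γ'))`. `α_0 = dd γ` by the first hypothesis. -/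
def SGXStmt : Prop := ∀ (p : ℕ) [Fact p.Prime] (K : Type) [Field K] [CharP K p] (n : ℕ) (k : ℤ)
    (Z : Multiset (Fin n → K)) (c : Fin n → K) (m : ℤ) (P : Module.Dual K (Fin n → K)),
  P c = 1 → (∀ z ∈ Z, P z = 0) → ExactAt (Om k Z) m →
  (∀ l : ℕ, p ≤ l → ExactAt (Om (k + l) Z) m ∧ ExactAt (Om (k + l) Z) (m - 1)) →
  ExactAt (Sig k Z c) m

/-- OMC (uses FIL CLO J00 DIF): section 1c. `η ∈ Cc k Z W m = OmH k Z W m ≤ Om k Z m` closed, `η = dd θ`, `θ ∈ Om k Z (m-1) = Omge k Z 0 (m-1)`. For `r < dim W`: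
from `Omge k Z r (m-1)` to `Omge k Z (r+1) (m-1)` by FIL with `e_H = pm PH`, `ε = 1`, `C_j = Cc k Z H (m-2+j)`, J00 with `i = m`, the hypothesis for
`H < W` and `Cc k Z H = 0` for `H` not contained in `W`. At the end `Omge k Z (dim W) (m-1) = OmH k Z W (m-1)`. -/
def OMCStmt : Prop := ∀ (K : Type) [Field K] (n : ℕ) (k : ℤ) (Z : Multiset (Fin n → K))
    (W : Submodule K (Fin n → K)) (m : ℤ),
  (∀ z ∈ Z, z ∈ W) → ExactAt (Om k Z) m →
  (∀ H : Submodule K (Fin n → K), H < W → ExactAt (Cc k Z H) (m - 1)) → ExactAt (Cc k Z W) m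

/-- VAN (uses CHN SGE SGI SGX OMC LPW CLO): Theorem V. Strong induction on `w = dim W`. `m > w`: `Om k Z m = 0` by LPW (4). `m < 0`: trivial.
`w = 0`: `m = 0`, HYP with `F = ⊥` gives `|Z| + p ≤ k`, and there is no `B ≤ Z` with `|B| = k`. `w ≥ 1`, `0 ≤ m ≤ w`: take `c ∈ W`, `c ≠ 0`, `P` with `P c = 1`.
CHN: for `c ∉ H`: `H` not contained in `W`: `Cc = 0`; `H < W`: by induction for `(H, ins Z H, k+1+j, m-1)` and `(.., m-2)`: HYP: with `t = w - dim H ≥ 1` the left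
side changes by `p (2 - t) - (p-1) t ≤ 1` (for `m - 1`: by `p (1 - t) - (p-1) t`). `s = |Z| + 1`, SGE (`k ≥ 0` by HYP for `F = ⊥`), SGI with
`f z = z - P z • c`, SGX with `Z' = Z.map f`, contained in `W' = W ⊓ ker P`, `dim W' = w - 1`: by induction for `(W', Z', k, m)`, `(W', Z', k+l, m)`,
`(W', Z', k+l, m-1)`, `l ≥ p`: for `F' ≤ W'` let `F = F' + K c`: `|ins Z' F'| = |ins Z F|`, `dim F = dim F' + 1`. Then OMC: for `H < W`: induction for
`(H, ins Z H, k, m - 1)`. -/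
def VANStmt : Prop := ∀ (p : ℕ) [Fact p.Prime] (K : Type) [Field K] [CharP K p] (n : ℕ)
    (W : Submodule K (Fin n → K)) (Z : Multiset (Fin n → K)) (k m : ℤ),
  (∀ z ∈ Z, z ∈ W) → HYP p W Z k m → ExactAt (Om k Z) m ∧ ExactAt (Cc k Z W) m

end Pool.Agent.ATB
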