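import Pool.Agent.ATB.Stmts
import Pool.Agent.ABCP.Stmts

set_option autoImplicit false

/-!
# The local criterion and the final rows (squad ATB, problem MP_4e0dfc_co)

`lam p f` = coefficient of `∏ X_s^(p-1)` in `f`. A family `U` of `(p-1) n` vectors is an AT-basis iff
`lam p (prodm U) ≠ 0`. `f ∈ I` means `lam p (g f) = 0` for all `g` (this is the ideal generated by the `X_s^p`; no
quotient ring is needed).
-/

namespace Pool.Agent.ATB

open scoped TensorProduct

section defs2
variable {K : Type} [Field K] {n : ℕ}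

/-- The exponent `(p-1, ..., p-1)`. -/
noncomputable def topx (p n : ℕ) : Fin n →₀ ℕ := Finsupp.equivFunOnFinite.symm (fun _ => p - 1)

/-- The coefficient of `∏ X_s^(p-1)`. -/
noncomputable def lam (p : ℕ) (f : MvPolynomial (Fin n) K) : K := MvPolynomial.coeff (topx p n) f

/-- `f` is in the ideal `(X_s^p)`. -/
def InI (p : ℕ) (f : MvPolynomial (Fin n) K) : Prop := ∀ g : MvPolynomial (Fin n) K, lam p (g * f) = 0

end defs2

/-- LCA: elementary properties of `lam`. `prodm D` is homogeneous of degree `card D`, `topx` has degree `(p-1) n`.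
(1) too large degree. (2) only the constant coefficient of `g` contributes. (3) too small degree. (4) the coefficient
of `X^(p-1)` in `∂_s f` is `p` times a coefficient of `f`. (5) consequence of (4): `g ∂f = ∂(g f) - (∂g) f`. (6) `1 ∉ I`. -/
def LCAStmt : Prop := ∀ (p : ℕ) [Fact p.Prime] (K : Type) [Field K] [CharP K p] (n : ℕ),
  (∀ (g : MvPolynomial (Fin n) K) (D : Multiset (Fin n → K)), (p - 1) * n < D.card → lam p (g * prodm D) = 0) ∧
  (∀ (g : MvPolynomial (Fin n) K) (D : Multiset (Fin n → K)), D.card = (p - 1) * n →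
    lam p (g * prodm D) = MvPolynomial.coeff 0 g * lam p (prodm D)) ∧
  (∀ (D : Multiset (Fin n → K)), D.card < (p - 1) * n → lam p (prodm D) = 0) ∧
  (∀ (s : Fin n) (f : MvPolynomial (Fin n) K), lam p (MvPolynomial.pderiv s f) = 0) ∧
  (∀ (s : Fin n) (f : MvPolynomial (Fin n) K), InI p f → InI p (MvPolynomial.pderiv s f)) ∧
  ¬ InI p (1 : MvPolynomial (Fin n) K)

/-- LCB: derivative of a product of linear forms, and `dd` on generators. Induction on `D` (`pderiv_lin`, `prodm_cons`;
`dd (lin a * f ⊗ ω) = f ⊗ (a ∧ ω) + lin a • dd (f ⊗ ω)`). -/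
def LCBStmt : Prop := ∀ (K : Type) [Field K] [DecidableEq K] (n : ℕ) (D : Multiset (Fin n → K)),
  (∀ s : Fin n, MvPolynomial.pderiv s (prodm D) =
    (D.map (fun a => MvPolynomial.C (a s) * prodm (D.erase a))).sum) ∧
  (∀ ω : ExteriorAlgebra K (Fin n → K), dd (prodm D ⊗ₜ[K] ω) =
    (D.map (fun a => prodm (D.erase a) ⊗ₜ[K] (ExteriorAlgebra.ι K a * ω))).sum)

/-- LCC: the top exterior power of a subspace `W` of dimension `w`: it contains a non-zero element (product of a basis;
e.g. by a dual functional, or `ExteriorAlgebra.ιMulti` of a basis of `W` extended to a basis, or the determinant), and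
`a ∧ ω = 0` for `a ∈ W`, `ω ∈ Λ^w(W)` (`w + 1` vectors of `W` are dependent). -/
def LCCStmt : Prop := ∀ (K : Type) [Field K] (n : ℕ) (W : Submodule K (Fin n → K)),
  (∃ ω ∈ Lpow W (Module.finrank K W : ℤ), ω ≠ 0) ∧
  (∀ a ∈ W, ∀ ω ∈ Lpow W (Module.finrank K W : ℤ), ExteriorAlgebra.ι K a * ω = 0)

/-- LOC (uses LCA LCB LCC): the local criterion (helper22). Let `S` = all `B` for which there is `D` with `B + D = Y`, `prodm D ∉ I`
(`Y ∈ S`). By LCA (1), (2) and the second hypothesis `card D < (p-1) n` for such `D` (if `card D = (p-1) n` then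
`lam (g prodm D) = g(0) lam (prodm D) = 0`). Let `b` be the minimal cardinality of `B ∈ S` (so `b ≥ |Y| - (p-1) n + 1`), and among the
`B ∈ S` of cardinality `b` let `B₀` (with `D₀`) have maximal `w = finrank (sp B₀)`; `W = sp B₀`.
`W ≠ ⊤`: otherwise for `c ∈ B₀` the polynomial `lin c * prodm D₀` is in `I` (minimality), so by linearity `X_s * prodm D₀ ∈ I` for all `s`,
so `lam (g prodm D₀) = g(0) lam (prodm D₀) = 0` (LCA (3)), contradiction. Let `Z = ins Y W`, `O = out Y W`, `k = b - w`;
choose `g` with `lam (g prodm D₀) ≠ 0`, `L q = lam (g * q * prodm O)`. `D₀ = D₁ + O` with `B₀ + D₁ = Z`.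
HYP p W Z k w: for `F ≤ W` (so `F ≠ ⊤`): `|Z ∩ F| + p + (p-1) w ≤ b - w + (2p-1) dim F` follows from `b ≥ |Y| - (p-1) n + 1`, `w + 1 ≤ n` and
`|Y| - |Y ∩ F| ≥ (2p-1)(n - dim F) - 1`.
Not exact: `x₀ = prodm D₁ ⊗ vol` (`vol` from LCC) is in `Cc k Z W w` and `dd x₀ = 0` (LCB, LCC). Suppose `x₀ = dd θ`, `θ ∈ Cc k Z W (w-1)`.
Apply `L ⊗ id : AA K n → ExteriorAlgebra`. `(L ⊗ id) x₀ = L(prodm D₁) vol = lam (g prodm D₀) vol ≠ 0`. But `(L ⊗ id)(dd x) = 0` for the generators
`x = prodm D ⊗ ω`, `B' + D = Z`, `sp B' = W`, `card B' = b - 1`: it is `ι(v) ω` with `v = Σ_{a ∈ D} L(prodm (D - a)) a` and `v = 0` because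
`v_s = Σ_{a ∈ D} a_s L(prodm (D - a)) = lam (g ∂_s (prodm (D + O))) - Σ_{a ∈ O} a_s lam (g prodm D prodm (O - a))`; the first term is 0 since
`prodm (D + O) ∈ I` (minimality of `b`, `card B' = b - 1`) and LCA (5); the others are 0 since `a + B'` has cardinality `b` and rank `w + 1`
(`a ∉ W = sp B'`), so its complement is in `I` by maximality of `w`. -/
def LOCStmt : Prop := ∀ (p : ℕ) [Fact p.Prime] (K : Type) [Field K] [CharP K p] (n : ℕ) (Y : Multiset (Fin n → K)),
  (∀ F : Submodule K (Fin n → K), F ≠ ⊤ →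
    (2 * (p : ℤ) - 1) * (n - Module.finrank K F) ≤ ((out Y F).card : ℤ) + 1) →
  (∀ U D : Multiset (Fin n → K), U + D = Y → U.card = (p - 1) * n → lam p (prodm U) = 0) →
  ∃ (W : Submodule K (Fin n → K)) (k : ℤ),
    HYP p W (ins Y W) k (Module.finrank K W) ∧ ¬ ExactAt (Cc k (ins Y W) W) (Module.finrank K W)

/-- PIX: a subfamily of a family of columns comes from a set of indices (`ι` finite). Induction on `S : Finset ι` for
`U + D = S.val.map col`, or `Multiset.map_eq_map`-type lemmas, or: for `U ≤ s.map f` there is `t ≤ s` with `t.map f = U`. -/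
def PIXStmt : Prop := ∀ (α β : Type) [Fintype α] (f : α → β) (U D : Multiset β),
  U + D = (Finset.univ : Finset α).val.map f → ∃ S : Finset α, U = S.val.map f

/-- PCO: `lam p (prodm U)` for the columns of a matrix with `(p-1) n` columns is, up to the non-zero factor `((p-1)!)^n`, the
permanent. `∏_c (Σ_i M i c X_i)` has at `∏ X_i^(p-1)` the coefficient `Σ_φ ∏_c M (φ c) c` over the `φ : C → Fin n` with all fibres of size
`p-1`; the permanent is `Σ_σ ∏_c M (σ c).2 c = Σ_φ #{σ | (σ c).2 = φ c} ∏_c M (φ c) c`, and this number is `((p-1)!)^n` if all fibres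
have size `p-1` (`DomMulAct.stabilizer_card`), 0 otherwise. Or: substitute `X_i = Σ_j y_(j,i)` and take the coefficient of `∏ y_(j,i)`
(a product of linear forms in `(p-1) n` variables; its multilinear coefficient is the permanent). -/
def PCOStmt : Prop := ∀ (p : ℕ) [Fact p.Prime] (K : Type) [Field K] [CharP K p] (n : ℕ)
    (M : Matrix (Fin n) (Fin (p - 1) × Fin n) K),
  lam p (prodm ((Finset.univ : Finset (Fin (p - 1) × Fin n)).val.map (fun c r => M r c))) ≠ 0 →
  Matrix.permanent (Matrix.of (fun (r c : Fin (p - 1) × Fin n) => M r.2 c)) ≠ 0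

/-- GN2 (uses VAN LOC PIX PCO): any family of columns such that every proper subspace `U` misses at least
`(2p-1) codim U - 1` of them contains an AT-basis. `Y` = multiset of the columns; `card (out Y F) = Nat.card {c // col c ∉ F}`. If no
subfamily of `(p-1) n` columns has `lam ≠ 0`, LOC contradicts VAN (`Z = ins Y W`). Otherwise take `S` from PIX, a bijection
`Fin (p-1) × Fin n ≃ S`, and PCO. -/
def GN2Stmt : Prop := ∀ (p : ℕ) [Fact p.Prime] (K : Type) [Field K] [CharP K p] (n : ℕ)
    (ι : Type) [Fintype ι] (Y : Matrix (Fin n) ι K),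
  (∀ U : Submodule K (Fin n → K), U ≠ ⊤ →
    (2 * p - 1) * n ≤ Nat.card {c // (fun r => Y r c) ∉ U} + (2 * p - 1) * Module.finrank K U + 1) →
  ∃ f : Fin (p - 1) × Fin n → ι, Function.Injective f ∧
    Matrix.permanent (Matrix.of (fun (r c : Fin (p - 1) × Fin n) => Y r.2 (f c))) ≠ 0

/-- FO2 (uses GN2): `2p - 1` invertible matrices (adapt `Helper69_ABCP/FOU.lean`). `ι = Fin (2p-1) × Fin n`; a proper subspace `U`
contains at most `dim U` columns of each `B j`, so it misses at least `n - dim U` columns of each. -/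
def FO2Stmt : Prop := ∀ (p : ℕ) [Fact p.Prime] (K : Type) [Field K] [CharP K p] (n : ℕ)
    (B : Fin (2 * p - 1) → Matrix (Fin n) (Fin n) K),
  (∀ j, (B j).det ≠ 0) →
  ∃ f : Fin (p - 1) × Fin n → Fin (2 * p - 1) × Fin n, Function.Injective f ∧
    Matrix.permanent (Matrix.of (fun (r c : Fin (p - 1) × Fin n) => B (f c).1 r.2 (f c).2)) ≠ 0

end Pool.Agent.ATB
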