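import Pool.Agent.ATB.Stmts2

set_option autoImplicit false

/-!
# The refined vanishing theorem (squad ATB, problem MP_4e0dfc_co, helper95 after helper21)

The proof of the vanishing theorem works under the weaker hypothesis `|Z ∩ F| ≤ k - 1 + bet p (codim F) m` for all
subspaces `F` of `W` (`m` = degree of the forms): `bet` is the largest function with
`bet g m ≤ 1 + bet (g-1) (m-2)`, `bet g m ≤ bet (g-1) (m-1)`, `bet g m ≤ p + bet g (m-1)`, `bet 0 0 = 0`.
-/

namespace Pool.Agent.ATB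

open scoped TensorProduct

/-- The slack in the refined hypothesis. -/
def bet (p : ℕ) (g j : ℤ) : ℤ := if j ≤ g then 0 else if j ≤ 2 * g then j - g else g + p * (j - 2 * g)

section defs3
variable {K : Type} [Field K] {n : ℕ}

/-- The refined hypothesis of the vanishing theorem. -/
def HYP2 (p : ℕ) (W : Submodule K (Fin n → K)) (Z : Multiset (Fin n → K)) (k m : ℤ) : Prop :=
  m ≤ Module.finrank K W → ∀ F : Submodule K (Fin n → K), F ≤ W →
    ((ins Z F).card : ℤ) ≤ k - 1 + bet p ((Module.finrank K W : ℤ) - Module.finrank K F) m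

end defs3

/-- VAN2: the refined vanishing theorem (proof: the proof of VAN, only the arithmetic changes). -/
def VAN2Stmt : Prop := ∀ (p : ℕ) [Fact p.Prime] (K : Type) [Field K] [CharP K p] (n : ℕ)
    (W : Submodule K (Fin n → K)) (Z : Multiset (Fin n → K)) (k m : ℤ),
  (∀ z ∈ Z, z ∈ W) → HYP2 p W Z k m → ExactAt (Om k Z) m ∧ ExactAt (Cc k Z W) m

/-- LOX: the core of the local criterion LOC (same proof, without the arithmetic at the end). -/
def LOXStmt : Prop := ∀ (p : ℕ) [Fact p.Prime] (K : Type) [Field K] [CharP K p] (n : ℕ) (Y : Multiset (Fin n → K)),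
  (∀ U D : Multiset (Fin n → K), U + D = Y → U.card = (p - 1) * n → lam p (prodm U) = 0) →
  ∃ (W : Submodule K (Fin n → K)) (b : ℤ), W ≠ ⊤ ∧ (Y.card : ℤ) - (p - 1) * n + 1 ≤ b ∧
    ¬ ExactAt (Cc (b - Module.finrank K W) (ins Y W) W) (Module.finrank K W)

/-- GN3 (uses VAN2 LOX PIX PCO; adapt `Helper49_ATB/GN2.lean`): any family of columns such that for every proper subspace `U`
at least `(2p-1) codim U - p` or at least `(p-1) n + codim U - 1` of them are outside `U` contains an AT-basis.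
HYP2 for `W`, `Z = ins Y W`, `k = b - w`, `m = w`, `F ≤ W`, `f = dim F`, `w ≤ n - 1`: `|Y ∩ F| ≤ b - w - 1 + bet p (w - f) w` follows
from `b ≥ |Y| - (p-1) n + 1` and the hypothesis for `F`: we need `|Y - F| ≥ (p-1) n + w - bet p (w-f) w`, and
`w - bet p (w-f) w` is `w - f ≤ n - 1 - f` if `2 f ≤ w`, and `f - p (2 f - w) = p w - (2p-1) f ≤ p (n-1) - (2p-1) f` if `2 f ≥ w`
(in the last case it is also `≤ n - 1 - f`, since `w ≤ 2 f` gives `p w - (2p-1) f ≤ w - f`; in the first case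
`w - f ≤ p (n-1) - (2p-1) f`? if `2 f ≤ w`: `p (n-1) - (2p-1) f ≥ p w - (2p-1) f ≥ w - f` iff `(p-1) w ≥ (2p-2) f`: true). -/
def GN3Stmt : Prop := ∀ (p : ℕ) [Fact p.Prime] (K : Type) [Field K] [CharP K p] (n : ℕ)
    (ι : Type) [Fintype ι] (Y : Matrix (Fin n) ι K),
  (∀ U : Submodule K (Fin n → K), U ≠ ⊤ →
    (2 * p - 1) * n ≤ Nat.card {c // (fun r => Y r c) ∉ U} + (2 * p - 1) * Module.finrank K U + p ∨
    p * n ≤ Nat.card {c // (fun r => Y r c) ∉ U} + Module.finrank K U + 1) →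
  ∃ f : Fin (p - 1) × Fin n → ι, Function.Injective f ∧
    Matrix.permanent (Matrix.of (fun (r c : Fin (p - 1) × Fin n) => Y r.2 (f c))) ≠ 0

/-- FO3 (uses GN3): `m` invertible matrices with `p ≤ m` and `(2p-1-m) ⌊(n+1)/2⌋ ≤ p`. With `g = ⌊(n+1)/2⌋`, `c = codim U`:
`U` misses at least `m c` columns. If `c ≤ g`: `(2p-1) c ≤ m c + p`. If `c ≥ g + 1`: `p n ≤ m c + (n - c) + 1`, because with
`t = 2p-1-m` (`t ≤ p-1`, `t g ≤ p`; `t ≤ 0` easy) `(m-1) c ≥ (2p-2-t)(g+1) ≥ (2p-2)(g+1) - p - t ≥ (2p-2) g - 1 ≥ (p-1) n - 1`. -/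
def FO3Stmt : Prop := ∀ (p : ℕ) [Fact p.Prime] (K : Type) [Field K] [CharP K p] (n m : ℕ), p ≤ m →
  (2 * p - 1) * ((n + 1) / 2) ≤ m * ((n + 1) / 2) + p → ∀ (B : Fin m → Matrix (Fin n) (Fin n) K),
  (∀ j, (B j).det ≠ 0) →
  ∃ f : Fin (p - 1) × Fin n → Fin m × Fin n, Function.Injective f ∧
    Matrix.permanent (Matrix.of (fun (r c : Fin (p - 1) × Fin n) => B (f c).1 r.2 (f c).2)) ≠ 0

end Pool.Agent.ATB
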